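import Pool.Agent.helper73.BS.Spec2

/-!
# Project bs (MP_a2a22c_al), row PU: a unipotent element
-/

set_option autoImplicit false

namespace Pool.Agent.BS

open Matrix Module Pool.Agent.UG Pool.Agent.H48SL Pool.Agent.SHL

theorem PU_vm {m : ℕ} (a b v : VQ m) : vecMulVec a b *ᵥ v = (b ⬝ᵥ v) • a := by
  ext i
  rw [vecMulVec_mulVec]
  simp [mul_comm]

theorem PU_rv {m : ℕ} (a b v : VQ m) : v ᵥ* vecMulVec a b = (v ⬝ᵥ a) • b := by
  ext i
  rw [vecMul_vecMulVec]

theorem PU_mul {m : ℕ} (a b c d : VQ m) : vecMulVec a b * vecMulVec c d = (b ⬝ᵥ c) • vecMulVec a d := by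
  rw [vecMulVec_mul, PU_rv, vecMulVec_smul]

theorem PU_pow {m : ℕ} {M : MQ m} (hM : M * M = 0) (k : ℕ) : (1 + M) ^ k = 1 + (k : ℚ) • M := by
  induction k with
  | zero => simp
  | succ k ih =>
    rw [pow_succ, ih]
    simp only [Matrix.add_mul, Matrix.mul_add, Matrix.one_mul, Matrix.mul_one,
      Matrix.smul_mul, hM, smul_zero, add_zero, Nat.cast_succ, add_smul, one_smul]
    abel

theorem PU_clear {ι : Type} [Fintype ι] [DecidableEq ι] (v : ι → ℚ) :
    ∃ k : ℕ, 1 ≤ k ∧ ∃ w : ι → ℤ, castV w = (k : ℚ) • v := by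
  obtain ⟨N, w, hN, hw⟩ := clear_denom v
  refine ⟨N.natAbs, Nat.one_le_iff_ne_zero.mpr (Int.natAbs_ne_zero.mpr hN), ?_⟩
  rcases Int.natAbs_eq N with h | h
  · refine ⟨w, ?_⟩
    rw [hw]
    congr 1
    rw [h]
    simp
  · refine ⟨-w, ?_⟩
    have h1 : castV (-w) = -castV w := by
      ext i
      simp [castV]
    rw [h1, hw, ← neg_smul]
    congr 1
    have h2 : (N : ℚ) = -((N.natAbs : ℕ) : ℚ) := by
      rw [h]
      simp
    rw [h2, neg_neg]

/-- an integer vector orthogonal to three rational vectors -/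
theorem PU_orth {n : ℕ} (hn : 3 ≤ n) (α β γ : VQ (n + 1)) :
    ∃ p : Fin (n + 1) → ℤ, p ≠ 0 ∧ α ⬝ᵥ castV p = 0 ∧ β ⬝ᵥ castV p = 0 ∧ γ ⬝ᵥ castV p = 0 := by
  set A : Matrix (Fin 3) (Fin (n + 1)) ℚ := Matrix.of ![α, β, γ] with hA
  have h1 : LinearMap.ker (Matrix.mulVecLin A) ≠ ⊥ := by
    apply LinearMap.ker_ne_bot_of_finrank_lt
    rw [Module.finrank_fin_fun, Module.finrank_fin_fun]
    omega
  obtain ⟨v, hv, hv0⟩ := (Submodule.ne_bot_iff _).mp h1
  obtain ⟨N, w, hN, hw⟩ := clear_denom v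
  rw [LinearMap.mem_ker, Matrix.mulVecLin_apply] at hv
  have ha : α ⬝ᵥ v = 0 := congrFun hv 0
  have hb : β ⬝ᵥ v = 0 := congrFun hv 1
  have hc : γ ⬝ᵥ v = 0 := congrFun hv 2
  have hN' : (N : ℚ) ≠ 0 := by exact_mod_cast hN
  refine ⟨w, ?_, ?_, ?_, ?_⟩
  · rintro rfl
    rw [castV_zero] at hw
    exact (smul_ne_zero hN' hv0) hw.symm
  · rw [hw, dotProduct_smul, ha, smul_zero]
  · rw [hw, dotProduct_smul, hb, smul_zero]
  · rw [hw, dotProduct_smul, hc, smul_zero]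

theorem PU_e0dot {n : ℕ} (v : VQ (n + 1)) : e0 n ⬝ᵥ v = v 0 := by
  unfold e0
  rw [single_one_dotProduct]

theorem PU_dote0 {n : ℕ} (v : VQ (n + 1)) : v ⬝ᵥ e0 n = v 0 := by
  rw [dotProduct_comm, PU_e0dot]

theorem PU_fx {n : ℕ} {p θ : Fin (n + 1) → ℤ} (h : θ ⬝ᵥ p = 0) (h0 : θ 0 = 0) : fx (tv p θ) := by
  unfold fx
  rw [qg_tv h, add_mulVec, one_mulVec, PU_vm, PU_dote0]
  have : castV θ 0 = 0 := by simp [castV, h0]
  rw [this, zero_smul, add_zero]

theorem PU_fin {n : ℕ} {p θ : Fin (n + 1) → ℤ} (h : θ ⬝ᵥ p = 0) (h0 : θ 0 = 0) (hp0 : p 0 = 0)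
    (hp : p ≠ 0) (hθ : θ ≠ 0) :
    fx (tv p θ) ∧ dn (qg (tv p θ)) ≠ 1 ∧ IsNilpotent (qg (tv p θ) - 1) := by
  refine ⟨PU_fx h h0, ?_, ?_⟩
  · intro h1
    obtain ⟨i, hi⟩ := Function.ne_iff.mp hp
    obtain ⟨j, hj⟩ := Function.ne_iff.mp hθ
    rw [Pi.zero_apply] at hi hj
    have hi0 : i ≠ 0 := fun h => hi (by rw [h]; exact hp0)
    have hj0 : j ≠ 0 := fun h => hj (by rw [h]; exact h0)
    obtain ⟨i', rfl⟩ := Fin.exists_succ_eq.mpr hi0
    obtain ⟨j', rfl⟩ := Fin.exists_succ_eq.mpr hj0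
    have h2 := congrFun (congrFun h1 i') j'
    rw [dn_apply, qg_tv h, Matrix.add_apply, vecMulVec_apply] at h2
    have h3 : (1 : MQ (n + 1)) i'.succ j'.succ = (1 : MQ n) i' j' := by
      rw [Matrix.one_apply, Matrix.one_apply]
      by_cases hij : i' = j'
      · rw [if_pos hij, if_pos (by rw [hij])]
      · rw [if_neg hij, if_neg (fun h => hij (Fin.succ_injective _ h))]
    rw [h3] at h2
    have h4 : castV p i'.succ * castV θ j'.succ = 0 := by linarith
    rcases mul_eq_zero.mp h4 with h5 | h5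
    · exact hi (by simpa [castV] using h5)
    · exact hj (by simpa [castV] using h5)
  · refine ⟨2, ?_⟩
    rw [qg_tv h, add_sub_cancel_left, sq, PU_mul, castV_dot, h, Int.cast_zero, zero_smul]

/-- the commutator with a transvection -/
theorem PU_comm {n : ℕ} (g gi : MQ n) (hg : g * gi = 1) {e φ : Fin n → ℤ} (h : φ ⬝ᵥ e = 0) :
    g * (qg (tv e φ) * gi * qg (tv e φ)⁻¹) =
      (1 + vecMulVec (g *ᵥ castV e) (castV φ ᵥ* gi)) * (1 - vecMulVec (castV e) (castV φ)) := by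
  have h1 : qg (tv e φ)⁻¹ = 1 - vecMulVec (castV e) (castV φ) := by
    rw [← tv_neg_right h, qg_tv (by rw [neg_dotProduct, h, neg_zero])]
    have h2 : castV (-φ) = -castV φ := by
      ext i
      simp [castV]
    rw [h2, vecMulVec_neg, sub_eq_add_neg]
  rw [h1, qg_tv h, ← Matrix.mul_assoc, ← Matrix.mul_assoc]
  congr 1
  rw [Matrix.mul_add, Matrix.mul_one, Matrix.add_mul, hg, mul_vecMulVec, vecMulVec_mul]

theorem PU (hEXI : UG.EXI_stmt) (hLG : UG.LG_stmt) (hEXJ : UG.EXJ_stmt) : PU_stmt := by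
  intro n hn Z hmul hZ hnorm x hx hw
  -- membership
  have hcomm : ∀ g ∈ Z, ∀ e φ : Fin (n + 1) → ℤ, φ ⬝ᵥ e = 0 → φ 0 = 0 →
      (1 + vecMulVec (g *ᵥ castV e) (castV φ ᵥ* g⁻¹)) * (1 - vecMulVec (castV e) (castV φ)) ∈ Z := by
    intro g hg e φ h h0
    have hdet : IsUnit g.det := by rw [(hZ g hg).1]; exact isUnit_one
    rw [← PU_comm g g⁻¹ (Matrix.mul_nonsing_inv g hdet) h]
    exact hmul _ hg _ (hnorm _ (PU_fx h h0) _ (hZ g hg).2.1)
  have hpow : ∀ g ∈ Z, ∀ m : ℕ, g ^ (m + 1) ∈ Z := by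
    intro g hg m
    induction m with
    | zero => rw [zero_add, pow_one]; exact hg
    | succ m ih => rw [pow_succ]; exact hmul _ ih _ hg
  have hinv : ∀ g ∈ Z, g * g⁻¹ = 1 ∧ g⁻¹ * g = 1 := by
    intro g hg
    have hdet : IsUnit g.det := by rw [(hZ g hg).1]; exact isUnit_one
    exact ⟨Matrix.mul_nonsing_inv g hdet, Matrix.nonsing_inv_mul g hdet⟩
  -- the vector `e`
  obtain ⟨e, he0, he⟩ : ∃ e : Fin (n + 1) → ℤ, e 0 = 0 ∧
      x *ᵥ castV e ∉ Submodule.span ℚ {e0 n, castV e} := by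
    obtain ⟨w, hw⟩ := hw
    obtain ⟨N, e, hN, he⟩ := clear_denom (w - (w 0) • e0 n)
    have hN' : (N : ℚ) ≠ 0 := by exact_mod_cast hN
    refine ⟨e, ?_, ?_⟩
    · have h1 := congrFun he 0
      have h2 : e0 n 0 = 1 := by unfold e0; exact Pi.single_eq_same 0 1
      simp only [castV, Pi.smul_apply, Pi.sub_apply, h2, smul_eq_mul, mul_one, sub_self,
        mul_zero] at h1
      exact_mod_cast h1
    · intro h1
      apply hw
      rw [Submodule.mem_span_pair] at h1 ⊢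
      obtain ⟨a, b, hab⟩ := h1
      rw [he, mulVec_smul, mulVec_sub, mulVec_smul, (hZ x hx).2.2] at hab
      refine ⟨w 0 + (N : ℚ)⁻¹ * a - b * w 0, b, ?_⟩
      have h2 : x *ᵥ w = (N : ℚ)⁻¹ • ((N : ℚ) • (x *ᵥ w - w 0 • e0 n)) + w 0 • e0 n := by
        rw [smul_smul, inv_mul_cancel₀ hN', one_smul]
        abel
      rw [h2, ← hab]
      ext i
      simp only [Pi.add_apply, Pi.smul_apply, Pi.sub_apply, smul_eq_mul]
      field_simp
      ring
  -- the row `φ`
  obtain ⟨φ, hφ, hφ0, hφe, -⟩ := PU_orth hn (e0 n) (castV e) 0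
  rw [PU_e0dot] at hφ0
  have hφ0' : φ 0 = 0 := by simpa [castV] using hφ0
  have hφe' : φ ⬝ᵥ e = 0 := by
    rw [castV_dot] at hφe
    rw [dotProduct_comm]
    exact_mod_cast hφe
  set E : VQ (n + 1) := castV e with hE
  set Φ : VQ (n + 1) := castV φ with hΦ
  set χ : VQ (n + 1) := Φ ᵥ* x⁻¹ with hχ
  have hΦE : Φ ⬝ᵥ E = 0 := by rw [dotProduct_comm]; exact hφe
  set y : MQ (n + 1) := (1 + vecMulVec (x *ᵥ E) χ) * (1 - vecMulVec E Φ) with hy
  have hyZ : y ∈ Z := hcomm x hx e φ hφe' hφ0'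
  have hye0 : y *ᵥ e0 n = e0 n := (hZ y hyZ).2.2
  have hy2 : y * (1 + vecMulVec E Φ) = 1 + vecMulVec (x *ᵥ E) χ := by
    rw [hy, Matrix.mul_assoc]
    have h1 : (1 - vecMulVec E Φ) * (1 + vecMulVec E Φ) = 1 := by
      rw [Matrix.sub_mul, Matrix.one_mul, Matrix.mul_add, Matrix.mul_one, PU_mul, hΦE, zero_smul,
        add_zero, add_sub_cancel_right]
    rw [h1, Matrix.mul_one]
  have hχ0 : χ ≠ 0 := by
    intro h1
    apply hφ
    apply castV_inj
    rw [castV_zero]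
    have h2 : Φ = χ ᵥ* x := by
      rw [hχ, vecMul_vecMul, (hinv x hx).2, vecMul_one]
    rw [← hΦ, h2, h1, zero_vecMul]
  have hydn : dn y ≠ 1 := by
    intro h1
    apply he
    obtain ⟨j, hj⟩ := Function.ne_iff.mp hχ0
    rw [Pi.zero_apply] at hj
    have hrow : ∀ (u : VQ (n + 1)) (i : Fin n), (y *ᵥ u) i.succ = u i.succ := by
      intro u i
      have h2 : (y *ᵥ u) i.succ = ∑ k, y i.succ k * u k := rfl
      rw [h2, Fin.sum_univ_succ]
      have h3 : y i.succ 0 = 0 := by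
        have h5 := mulVec_e0 y i.succ
        rw [hye0] at h5
        rw [← h5]
        unfold e0
        rw [Pi.single_apply, if_neg (Fin.succ_ne_zero i)]
      have h4 : ∀ k : Fin n, y i.succ k.succ = (1 : MQ n) i k := fun k => congrFun (congrFun h1 i) k
      rw [h3, zero_mul, zero_add]
      simp only [h4, Matrix.one_apply, ite_mul, one_mul, zero_mul]
      rw [Finset.sum_ite_eq Finset.univ i (fun k => u k.succ), if_pos (Finset.mem_univ i)]
    have hkey : ∀ i : Fin n, χ j * (x *ᵥ E) i.succ = Φ j * E i.succ := by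
      intro i
      have h2 := congrFun (congrArg (fun A : MQ (n + 1) => A *ᵥ (Pi.single j 1 : VQ (n + 1))) hy2) i.succ
      simp only [← mulVec_mulVec, add_mulVec, one_mulVec, PU_vm, dotProduct_single_one] at h2
      rw [hrow] at h2
      simp only [Pi.add_apply, Pi.smul_apply, smul_eq_mul] at h2
      linarith
    rw [Submodule.mem_span_pair]
    refine ⟨(x *ᵥ E) 0, Φ j / χ j, ?_⟩
    ext i
    refine Fin.cases ?_ (fun i => ?_) i
    · have h2 : e0 n 0 = 1 := by unfold e0; exact Pi.single_eq_same 0 1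
      have h3 : E 0 = 0 := by rw [hE]; simp [castV, he0]
      simp only [Pi.add_apply, Pi.smul_apply, smul_eq_mul, h2, h3]
      ring
    · have h2 : e0 n i.succ = 0 := by
        unfold e0
        rw [Pi.single_apply, if_neg (Fin.succ_ne_zero i)]
      simp only [Pi.add_apply, Pi.smul_apply, smul_eq_mul, h2, mul_zero, zero_add]
      rw [div_mul_eq_mul_div, div_eq_iff hj, ← hkey i]
      ring
  -- the vector `p`
  obtain ⟨p, hp, hp0, hφp, hχp⟩ := PU_orth hn (e0 n) Φ χ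
  rw [PU_e0dot] at hp0
  have hp0' : p 0 = 0 := by simpa [castV] using hp0
  set P : VQ (n + 1) := castV p with hP
  have hyP : y *ᵥ P = P := by
    rw [hy, ← mulVec_mulVec, sub_mulVec, one_mulVec, PU_vm, hφp, zero_smul, sub_zero,
      add_mulVec, one_mulVec, PU_vm, hχp, zero_smul, add_zero]
  by_cases hA : ∃ ψ : Fin (n + 1) → ℤ, ψ 0 = 0 ∧ ψ ⬝ᵥ p = 0 ∧ castV ψ ᵥ* y⁻¹ ≠ castV ψ
  · -- case A
    obtain ⟨ψ, hψ0, hψp, hψy⟩ := hA
    have hz := hcomm y hyZ p ψ hψp hψ0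
    rw [← hP, hyP] at hz
    set Ψ : VQ (n + 1) := castV ψ with hΨ
    have hΨP : Ψ ⬝ᵥ P = 0 := by rw [hΨ, hP, castV_dot, hψp, Int.cast_zero]
    have hyiP : y⁻¹ *ᵥ P = P := by
      have h1 : y⁻¹ *ᵥ (y *ᵥ P) = P := by rw [mulVec_mulVec, (hinv y hyZ).2, one_mulVec]
      rwa [hyP] at h1
    have hΨyP : (Ψ ᵥ* y⁻¹) ⬝ᵥ P = 0 := by
      rw [← dotProduct_mulVec, hyiP, hΨP]
    set θ : VQ (n + 1) := Ψ ᵥ* y⁻¹ - Ψ with hθ
    have hzeq : (1 + vecMulVec P (Ψ ᵥ* y⁻¹)) * (1 - vecMulVec P Ψ) = 1 + vecMulVec P θ := by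
      rw [Matrix.add_mul, Matrix.one_mul, Matrix.mul_sub, Matrix.mul_one, PU_mul, hΨyP, zero_smul,
        sub_zero, hθ, vecMulVec_sub]
      abel
    rw [hzeq] at hz
    have hθP : θ ⬝ᵥ P = 0 := by rw [hθ, sub_dotProduct, hΨyP, hΨP, sub_zero]
    have hθ0 : θ 0 = 0 := by
      have h1 : (Ψ ᵥ* y⁻¹) 0 = 0 := by
        have h3 := PU_dote0 (Ψ ᵥ* y⁻¹)
        have h2 : y⁻¹ *ᵥ e0 n = e0 n := (hZ y⁻¹ (hZ y hyZ).2.1).2.2
        rw [← dotProduct_mulVec, h2, PU_dote0] at h3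
        rw [← h3, hΨ]
        simp [castV, hψ0]
      have h2 : Ψ 0 = 0 := by rw [hΨ]; simp [castV, hψ0]
      rw [hθ, Pi.sub_apply, h1, h2, sub_zero]
    have hθne : θ ≠ 0 := by
      rw [hθ]
      exact sub_ne_zero.mpr hψy
    obtain ⟨m, hm, t, ht⟩ := PU_clear θ
    have hm0 : (m : ℚ) ≠ 0 := by exact_mod_cast (by omega : m ≠ 0)
    have htp : t ⬝ᵥ p = 0 := by
      have h1 := castV_dot t p
      rw [ht, smul_dotProduct, ← hP, hθP, smul_zero] at h1
      exact_mod_cast h1.symm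
    have ht0 : t 0 = 0 := by
      have h1 := congrFun ht 0
      rw [Pi.smul_apply, hθ0, smul_zero] at h1
      simpa [castV] using h1
    have htne : t ≠ 0 := by
      rintro rfl
      rw [castV_zero] at ht
      exact smul_ne_zero hm0 hθne ht.symm
    obtain ⟨f1, f2, f3⟩ := PU_fin htp ht0 hp0' hp htne
    refine ⟨tv p t, f1, ?_, f2, f3⟩
    have h1 : qg (tv p t) = (1 + vecMulVec P θ) ^ m := by
      rw [PU_pow (by rw [PU_mul, hθP, zero_smul]), qg_tv htp, ht, vecMulVec_smul]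
    rw [h1]
    obtain ⟨m', rfl⟩ := Nat.exists_eq_succ_of_ne_zero (by omega : m ≠ 0)
    exact hpow _ hz m'
  · -- case B
    push Not at hA
    set M : MQ (n + 1) := y - 1 with hM
    have hyM : y = 1 + M := by rw [hM]; abel
    have hMe : M *ᵥ e0 n = 0 := by rw [hM, sub_mulVec, one_mulVec, hye0, sub_self]
    have hMP : M *ᵥ P = 0 := by rw [hM, sub_mulVec, one_mulVec, hyP, sub_self]
    have hψM : ∀ ψ : Fin (n + 1) → ℤ, ψ 0 = 0 → ψ ⬝ᵥ p = 0 → castV ψ ᵥ* M = 0 := by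
      intro ψ h1 h2
      have h3 := hA ψ h1 h2
      have h4 : castV ψ ᵥ* y = castV ψ := by
        have h5 := congrArg (fun v => v ᵥ* y) h3
        simp only [vecMul_vecMul, (hinv y hyZ).2, vecMul_one] at h5
        exact h5.symm
      rw [hM, vecMul_sub, h4, vecMul_one, sub_self]
    obtain ⟨i0, hi0⟩ := Function.ne_iff.mp hp
    rw [Pi.zero_apply] at hi0
    have hi00 : i0 ≠ 0 := fun h => hi0 (by rw [h]; exact hp0')
    have hPi0 : P i0 ≠ 0 := by rw [hP]; simpa [castV] using hi0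
    have himg : ∀ u : VQ (n + 1), ∀ j, j ≠ 0 → P i0 * (M *ᵥ u) j = P j * (M *ᵥ u) i0 := by
      intro u j hj
      have h1 := hψM (p i0 • Pi.single j 1 - p j • Pi.single i0 1) (by
        rw [Pi.sub_apply, Pi.smul_apply, Pi.smul_apply, Pi.single_apply, Pi.single_apply,
          if_neg hj.symm, if_neg hi00.symm]
        simp) (by
        simp only [sub_dotProduct, smul_dotProduct, single_one_dotProduct, smul_eq_mul]
        ring)
      have h2 : castV (p i0 • Pi.single j 1 - p j • Pi.single i0 1 : Fin (n + 1) → ℤ) =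
          P i0 • (Pi.single j 1 : VQ (n + 1)) - P j • (Pi.single i0 1 : VQ (n + 1)) := by
        ext k
        simp only [castV, hP, Pi.sub_apply, Pi.smul_apply, smul_eq_mul, Pi.single_apply]
        split_ifs <;> simp
      rw [h2] at h1
      have h3 : (P i0 • (Pi.single j 1 : VQ (n + 1)) - P j • (Pi.single i0 1 : VQ (n + 1))) ⬝ᵥ
          (M *ᵥ u) = 0 := by
        rw [dotProduct_mulVec, h1, zero_dotProduct]
      simp only [sub_dotProduct, smul_dotProduct, single_one_dotProduct, smul_eq_mul] at h3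
      linarith
    have hMM : M * M = 0 := by
      apply Matrix.toLin'.injective
      apply LinearMap.ext
      intro u
      rw [Matrix.toLin'_apply, map_zero, LinearMap.zero_apply, ← mulVec_mulVec]
      have h1 : M *ᵥ u = (M *ᵥ u) 0 • e0 n + ((M *ᵥ u) i0 / P i0) • P := by
        ext j
        refine Fin.cases ?_ (fun j => ?_) j
        · have h2 : e0 n 0 = 1 := by unfold e0; exact Pi.single_eq_same 0 1
          have h3 : P 0 = 0 := hp0
          simp only [Pi.add_apply, Pi.smul_apply, smul_eq_mul, h2, h3]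
          ring
        · have h2 : e0 n j.succ = 0 := by
            unfold e0
            rw [Pi.single_apply, if_neg (Fin.succ_ne_zero j)]
          have h3 := himg u j.succ (Fin.succ_ne_zero j)
          simp only [Pi.add_apply, Pi.smul_apply, smul_eq_mul, h2, mul_zero, zero_add]
          rw [div_mul_eq_mul_div, eq_div_iff hPi0]
          linarith
      rw [h1, mulVec_add, mulVec_smul, mulVec_smul, hMe, hMP, smul_zero, smul_zero, add_zero]
    obtain ⟨k, hk, B, hB⟩ := PU_clear (fun a : Fin (n + 1) × Fin (n + 1) => M a.1 a.2)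
    have hk0 : (k : ℚ) ≠ 0 := by exact_mod_cast (by omega : k ≠ 0)
    have hyk : y ^ k = 1 + (k : ℚ) • M := by rw [hyM, PU_pow hMM]
    set B' : Matrix (Fin (n + 1)) (Fin (n + 1)) ℤ := 1 + Matrix.of (fun i j => B (i, j)) with hB'
    have hcast : (Int.castRingHom ℚ).mapMatrix B' = y ^ k := by
      rw [hyk, hB', map_add, map_one]
      congr 1
      ext i j
      have h1 := congrFun hB (i, j)
      simp only [castV, Pi.smul_apply, smul_eq_mul] at h1
      simp only [RingHom.mapMatrix_apply, Matrix.map_apply, Matrix.of_apply, eq_intCast,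
        Matrix.smul_apply, smul_eq_mul]
      exact h1
    obtain ⟨k', rfl⟩ := Nat.exists_eq_succ_of_ne_zero (by omega : k ≠ 0)
    have hykZ : y ^ (k' + 1) ∈ Z := hpow y hyZ k'
    have hdet : B'.det = 1 := by
      have h1 : (Int.castRingHom ℚ) B'.det = 1 := by
        rw [RingHom.map_det, hcast]
        exact (hZ _ hykZ).1
      rw [eq_intCast] at h1
      exact_mod_cast h1
    have hqz : qg (⟨B', hdet⟩ : SLZ (n + 1)) = y ^ (k' + 1) := hcast
    refine ⟨⟨B', hdet⟩, ?_, ?_, ?_, ?_⟩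
    · unfold fx
      rw [hqz]
      exact (hZ _ hykZ).2.2
    · rw [hqz]
      exact hykZ
    · rw [hqz]
      intro h1
      apply hydn
      have h2 : dn (y ^ (k' + 1)) = 1 + ((k' + 1 : ℕ) : ℚ) • dn M := by
        rw [hyk]
        have h3 : dn (1 + ((k' + 1 : ℕ) : ℚ) • M) = dn (1 : MQ (n + 1)) + ((k' + 1 : ℕ) : ℚ) • dn M := rfl
        rw [h3, dn_one]
      rw [h2] at h1
      have h3 : ((k' + 1 : ℕ) : ℚ) • dn M = 0 := by
        have := congrArg (fun A => A - (1 : MQ n)) h1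
        simpa using this
      have h4 : dn M = 0 := (smul_eq_zero.mp h3).resolve_left hk0
      have h5 : dn y = dn (1 : MQ (n + 1)) + dn M := by rw [hyM]; rfl
      rw [h5, h4, dn_one, add_zero]
    · rw [hqz, hyk, add_sub_cancel_left]
      refine ⟨2, ?_⟩
      rw [sq, Matrix.smul_mul, Matrix.mul_smul, hMM, smul_zero, smul_zero]

end Pool.Agent.BS
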